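import Pool.Agent.helper93.FR.Spec

/-!
Row Asym of the FR project (helper93): summation over the ranks.
-/

namespace Pool.Agent.helper93.FR

open Matrix BigOperators

theorem asym_exists_pos {r : ℕ} {N : Fin r → Fin r → Fin r → ℕ} {o : Fin r} {st : Fin r → Fin r}
    (h : IsFusion N o st) (i j : Fin r) : 1 ≤ ∑ k, N i j k := by
  by_contra hc
  have h0 : ∑ k, N i j k = 0 := by omega
  have h1 : ∀ k, N i j k = 0 := by
    intro k
    exact (Finset.sum_eq_zero_iff.mp h0) k (Finset.mem_univ k)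
  have e := h.assoc (st i) i j j
  have e2 : ∑ m, N i j m * N (st i) m j = 0 := by
    apply Finset.sum_eq_zero
    intro m _
    rw [h1 m, zero_mul]
  rw [e2] at e
  have e3 := (Finset.sum_eq_zero_iff.mp e) o (Finset.mem_univ o)
  rw [h.dual, h.one_left, if_pos rfl, if_pos (h.invol i).symm] at e3
  omega

theorem asym_rank_sq_le {r : ℕ} {N : Fin r → Fin r → Fin r → ℕ} {o : Fin r}
    {st : Fin r → Fin r} (h : IsFusion N o st) : r ^ 2 ≤ total N := by
  unfold total
  calc r ^ 2 = ∑ _i : Fin r, ∑ _j : Fin r, 1 := by simp [sq]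
    _ ≤ ∑ i, ∑ j, ∑ k, N i j k :=
        Finset.sum_le_sum fun i _ => Finset.sum_le_sum fun j _ => asym_exists_pos h i j

theorem asym_entry_le {r : ℕ} (N : Fin r → Fin r → Fin r → ℕ) (i j k : Fin r) :
    N i j k ≤ total N := by
  unfold total
  calc N i j k ≤ ∑ k, N i j k :=
        Finset.single_le_sum (f := fun k => N i j k) (fun _ _ => Nat.zero_le _)
          (Finset.mem_univ k)
    _ ≤ ∑ j, ∑ k, N i j k :=
        Finset.single_le_sum (f := fun j => ∑ k, N i j k) (fun _ _ => Nat.zero_le _)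
          (Finset.mem_univ j)
    _ ≤ ∑ i, ∑ j, ∑ k, N i j k :=
        Finset.single_le_sum (f := fun i => ∑ j, ∑ k, N i j k) (fun _ _ => Nat.zero_le _)
          (Finset.mem_univ i)

theorem asym_trivial (r M : ℕ) :
    (FRr r M).Finite ∧ (FRr r M).ncard ≤ (M + 1) ^ (r ^ 3) := by
  let f : (Fin r → Fin r → Fin r → Fin (M + 1)) → (Fin r → Fin r → Fin r → ℕ) :=
    fun g i j k => (g i j k : ℕ)
  have hsub : FRr r M ⊆ f '' Set.univ := by
    rintro N ⟨_, hN⟩
    refine ⟨fun i j k => ⟨N i j k, ?_⟩, Set.mem_univ _, rfl⟩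
    have := asym_entry_le N i j k
    omega
  have hfin : (f '' Set.univ).Finite := Set.Finite.image f Set.finite_univ
  refine ⟨hfin.subset hsub, ?_⟩
  calc (FRr r M).ncard ≤ (f '' Set.univ).ncard := Set.ncard_le_ncard hsub hfin
    _ ≤ (Set.univ : Set (Fin r → Fin r → Fin r → Fin (M + 1))).ncard :=
        Set.ncard_image_le Set.finite_univ
    _ = (M + 1) ^ (r ^ 3) := by
        rw [Set.ncard_univ, Nat.card_eq_fintype_card]
        simp only [Fintype.card_fun, Fintype.card_fin]
        rw [← pow_mul, ← pow_mul]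
        congr 1
        ring

theorem asym_pow_le_exp {b : ℝ} {n : ℕ} {c e : ℝ} (hb : 1 ≤ b) (hlog : Real.log b ≤ c)
    (hn : (n : ℝ) ≤ e) : b ^ n ≤ Real.exp (e * c) := by
  have hb0 : 0 < b := lt_of_lt_of_le one_pos hb
  have h1 : b ^ n = Real.exp ((n : ℝ) * Real.log b) := by
    rw [Real.exp_nat_mul, Real.exp_log hb0]
  rw [h1]
  apply Real.exp_le_exp.mpr
  exact mul_le_mul hn hlog (Real.log_nonneg hb) (le_trans (Nat.cast_nonneg n) hn)

/-- log b <= c log M if b <= M ^ c. -/
theorem asym_log_le {b M : ℝ} {c : ℕ} (hb : 0 < b) (h : b ≤ M ^ c) :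
    Real.log b ≤ c * Real.log M := by
  rw [← Real.log_pow]
  exact Real.log_le_log hb h

theorem asym_main (hR : CntR_stmt) (M r : ℕ) (hM : 2 ≤ M) (hr : r ^ 2 ≤ M) :
    (FRr r M).Finite ∧ ((FRr r M).ncard : ℝ) ≤
      Real.exp (196 * (M : ℝ) ^ (7 / 8 : ℝ) * (Real.log M) ^ 2) := by
  have hM' : (2 : ℝ) ≤ M := by exact_mod_cast hM
  have hM0 : (0 : ℝ) < M := by linarith
  have hM1 : (1 : ℝ) ≤ M := by linarith
  set L := Real.log (M : ℝ) with hL
  have hL2 : (1 / 2 : ℝ) ≤ L := by
    have h1 : Real.log 2 ≤ L := Real.log_le_log (by norm_num) hM'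
    have h2 := Real.log_two_gt_d9
    linarith
  have hL0 : 0 ≤ L := by linarith
  set E := (M : ℝ) ^ (7 / 8 : ℝ) with hE
  have hE1 : 1 ≤ E := Real.one_le_rpow hM1 (by norm_num)
  have hEle : ∀ a : ℝ, a ≤ 7 / 8 → (M : ℝ) ^ a ≤ E := fun a ha =>
    Real.rpow_le_rpow_of_exponent_le hM1 ha
  have hELL : E * L ≤ 2 * (E * L ^ 2) := by
    have : 0 ≤ E * L * (2 * L - 1) :=
      mul_nonneg (mul_nonneg (by linarith) hL0) (by linarith)
    nlinarith
  have hEL0 : 0 ≤ E * L := mul_nonneg (by linarith) hL0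
  have hr' : (r : ℝ) ^ 2 ≤ M := by exact_mod_cast hr
  have hr0 : (0 : ℝ) ≤ r := Nat.cast_nonneg r
  have hrhalf : (r : ℝ) ≤ (M : ℝ) ^ (1 / 2 : ℝ) := by
    rw [← Real.sqrt_eq_rpow]
    exact Real.le_sqrt_of_sq_le hr'
  have hrE : (r : ℝ) ≤ E := le_trans hrhalf (hEle _ (by norm_num))
  by_cases hsmall : r < 2 ∨ (r : ℝ) < (M : ℝ) ^ (1 / 8 : ℝ)
  · obtain ⟨hf, hc⟩ := asym_trivial r M
    refine ⟨hf, ?_⟩
    have h3 : ((r ^ 3 : ℕ) : ℝ) ≤ E := by
      push_cast
      rcases hsmall with h | h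
      · have h1 : (r : ℝ) ≤ 1 := by
          have : r ≤ 1 := by omega
          exact_mod_cast this
        calc (r : ℝ) ^ 3 ≤ 1 ^ 3 := pow_le_pow_left₀ hr0 h1 3
          _ = 1 := by norm_num
          _ ≤ E := hE1
      · calc (r : ℝ) ^ 3 ≤ ((M : ℝ) ^ (1 / 8 : ℝ)) ^ 3 := pow_le_pow_left₀ hr0 h.le 3
          _ = (M : ℝ) ^ (3 / 8 : ℝ) := by
              rw [← Real.rpow_natCast, ← Real.rpow_mul hM0.le]
              norm_num
          _ ≤ E := hEle _ (by norm_num)
    have h4 : ((M + 1 : ℕ) : ℝ) ^ (r ^ 3) ≤ Real.exp (E * (2 * L)) := by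
      apply asym_pow_le_exp _ _ h3
      · push_cast; linarith
      · have := asym_log_le (b := ((M + 1 : ℕ) : ℝ)) (M := (M : ℝ)) (c := 2)
          (by positivity) (by push_cast; nlinarith)
        simpa using this
    calc ((FRr r M).ncard : ℝ) ≤ (((M + 1) ^ (r ^ 3) : ℕ) : ℝ) := by exact_mod_cast hc
      _ = ((M + 1 : ℕ) : ℝ) ^ (r ^ 3) := by push_cast; ring
      _ ≤ Real.exp (E * (2 * L)) := h4
      _ ≤ Real.exp (196 * E * L ^ 2) := by
          apply Real.exp_le_exp.mpr
          have : 0 ≤ E * L ^ 2 := by positivity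
          nlinarith
  · rw [not_or, not_lt, not_lt] at hsmall
    obtain ⟨hr2, hr8⟩ := hsmall
    have hr2' : (2 : ℝ) ≤ r := by exact_mod_cast hr2
    have hrpos : (0 : ℝ) < r := by linarith
    set Q := (M : ℝ) ^ (1 / 8 : ℝ) with hQ
    have hQ1 : 1 ≤ Q := Real.one_le_rpow hM1 (by norm_num)
    have hQ0 : 0 < Q := by linarith
    have hQr : 1 ≤ (r : ℝ) / Q := by rw [le_div_iff₀ hQ0]; linarith
    set k := ⌈(r : ℝ) / Q⌉₊ with hk
    have hk1 : 1 ≤ k := by
      rw [hk]; exact Nat.one_le_ceil_iff.mpr (by linarith)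
    have hkge : (r : ℝ) / Q ≤ k := Nat.le_ceil _
    have hkle : (k : ℝ) ≤ 2 * ((r : ℝ) / Q) := by
      have := Nat.ceil_lt_add_one (a := (r : ℝ) / Q) (by linarith)
      have h2 : (k : ℝ) < (r : ℝ) / Q + 1 := this
      linarith
    have hkr : (k : ℝ) ≤ r := by
      have h1 : (r : ℝ) / Q ≤ r := div_le_self hr0 hQ1
      have : k ≤ r := Nat.ceil_le.mpr h1
      exact_mod_cast this
    have hk0 : (0 : ℝ) < k := by
      have : (1 : ℝ) ≤ k := by exact_mod_cast hk1
      linarith
    have hrk : (r : ℝ) / k ≤ Q := by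
      rw [div_le_iff₀ hk0]
      rw [div_le_iff₀ hQ0] at hkge
      linarith
    have hrM : (r : ℝ) ≤ M := by nlinarith
    obtain ⟨hf, hc⟩ := hR r k M hr2 hk1
    refine ⟨hf, hc.trans ?_⟩
    have hlr : Real.log r ≤ L := Real.log_le_log hrpos hrM
    have hlr0 : 0 ≤ Real.log r := Real.log_nonneg (by linarith)
    -- the factors
    have f1 : (r : ℝ) ^ k ≤ Real.exp (2 * E * L) := by
      apply asym_pow_le_exp (by linarith) hlr
      calc (k : ℝ) ≤ r := hkr
        _ ≤ E := hrE
        _ ≤ 2 * E := by linarith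
    have f2 : (r : ℝ) ^ (r + 1) ≤ Real.exp (2 * E * L) := by
      apply asym_pow_le_exp (by linarith) hlr
      push_cast
      linarith
    have f3 : ((k * r ^ 2 + 1 : ℕ) : ℝ) ^ (2 * k * M / r) ≤ Real.exp (4 * E * (4 * L)) := by
      apply asym_pow_le_exp
      · push_cast
        have : 0 ≤ (k : ℝ) * (r : ℝ) ^ 2 := by positivity
        linarith
      · have := asym_log_le (b := ((k * r ^ 2 + 1 : ℕ) : ℝ)) (M := (M : ℝ)) (c := 4)
          (by positivity) (by
            push_cast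
            have h1 : (k : ℝ) * (r : ℝ) ^ 2 ≤ M * M := mul_le_mul (hkr.trans hrM) hr'
              (by positivity) hM0.le
            have h2 : (M : ℝ) * M + 1 ≤ (M : ℝ) ^ 4 := by
              have : (4 : ℝ) ≤ (M : ℝ) ^ 2 := by nlinarith
              nlinarith
            linarith)
        simpa using this
      · have h1 : ((2 * k * M / r : ℕ) : ℝ) ≤ ((2 * k * M : ℕ) : ℝ) / r := Nat.cast_div_le
        refine h1.trans ?_
        rw [div_le_iff₀ hrpos]
        push_cast
        have h2 : (M : ℝ) = E * Q := by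
          rw [hE, hQ, ← Real.rpow_add hM0]
          norm_num
        have h3 : (k : ℝ) * Q ≤ 2 * r := by
          calc (k : ℝ) * Q ≤ 2 * ((r : ℝ) / Q) * Q := mul_le_mul_of_nonneg_right hkle hQ0.le
            _ = 2 * r := by field_simp
        calc 2 * (k : ℝ) * M = 2 * E * ((k : ℝ) * Q) := by rw [h2]; ring
          _ ≤ 2 * E * (2 * r) := mul_le_mul_of_nonneg_left h3 (by linarith)
          _ = 4 * E * r := by ring
    have f4 : (r : ℝ) + 1 ≤ Real.exp (E * (2 * L)) := by
      have := asym_pow_le_exp (b := (r : ℝ) + 1) (n := 1) (c := 2 * L) (e := E)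
        (by linarith) (by
          have := asym_log_le (b := (r : ℝ) + 1) (M := (M : ℝ)) (c := 2)
            (by linarith) (by nlinarith)
          simpa using this) (by simpa using hE1)
      simpa using this
    have f5 : ((r : ℝ) ^ r) ^ 5 ≤ Real.exp (5 * E * L) := by
      rw [← pow_mul]
      apply asym_pow_le_exp (by linarith) hlr
      push_cast
      linarith
    have hx : ((r : ℝ) / k) * Real.log r ≤ Q * L := mul_le_mul hrk hlr hlr0 hQ0.le
    have f6 : ((r ^ 2 + 1 : ℕ) : ℝ) ^ ⌊8 * (((r : ℝ) / k) * Real.log r) * r⌋₊ ≤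
        Real.exp (8 * E * L * (2 * L)) := by
      apply asym_pow_le_exp
      · push_cast
        have : 0 ≤ (r : ℝ) ^ 2 := by positivity
        linarith
      · have := asym_log_le (b := ((r ^ 2 + 1 : ℕ) : ℝ)) (M := (M : ℝ)) (c := 2)
          (by positivity) (by push_cast; nlinarith)
        simpa using this
      · have h0 : 0 ≤ 8 * (((r : ℝ) / k) * Real.log r) * r := by positivity
        refine (Nat.floor_le h0).trans ?_
        have h1 : Q * (r : ℝ) ≤ E := by
          calc Q * (r : ℝ) ≤ Q * (M : ℝ) ^ (1 / 2 : ℝ) := mul_le_mul_of_nonneg_left hrhalf hQ0.le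
            _ = (M : ℝ) ^ (5 / 8 : ℝ) := by
                rw [hQ, ← Real.rpow_add hM0]; norm_num
            _ ≤ E := hEle _ (by norm_num)
        calc 8 * (((r : ℝ) / k) * Real.log r) * r ≤ 8 * (Q * L) * r := by
              apply mul_le_mul_of_nonneg_right _ hr0
              linarith
          _ = 8 * (Q * r) * L := by ring
          _ ≤ 8 * E * L := by
              apply mul_le_mul_of_nonneg_right _ hL0
              linarith
    have f7 : ((r ^ 3 * (M + 1) * 4 + 1 : ℕ) : ℝ) ^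
        (2 * ⌊8 * (((r : ℝ) / k) * Real.log r) * (r * Real.sqrt r)⌋₊ + r) ≤
        Real.exp ((16 * E * L + E) * (7 * L)) := by
      apply asym_pow_le_exp
      · push_cast
        have : 0 ≤ (r : ℝ) ^ 3 * (M + 1) * 4 := by positivity
        linarith
      · have := asym_log_le (b := ((r ^ 3 * (M + 1) * 4 + 1 : ℕ) : ℝ)) (M := (M : ℝ)) (c := 7)
          (by positivity) (by
            push_cast
            have h1 : (r : ℝ) ^ 3 ≤ (M : ℝ) * M := by
              calc (r : ℝ) ^ 3 = (r : ℝ) * (r : ℝ) ^ 2 := by ring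
                _ ≤ (M : ℝ) * M := mul_le_mul hrM hr' (by positivity) hM0.le
            have h2 : (r : ℝ) ^ 3 * (M + 1) * 4 + 1 ≤ (M : ℝ) * M * (2 * M) * 4 + 1 := by
              have : (r : ℝ) ^ 3 * (M + 1) ≤ (M : ℝ) * M * (2 * M) :=
                mul_le_mul h1 (by linarith) (by positivity) (by positivity)
              linarith
            have h3 : (M : ℝ) * M * (2 * M) * 4 + 1 ≤ (M : ℝ) ^ 7 := by
              have a3 : (8 : ℝ) ≤ (M : ℝ) ^ 3 := by
                calc (8 : ℝ) = 2 ^ 3 := by norm_num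
                  _ ≤ (M : ℝ) ^ 3 := pow_le_pow_left₀ (by norm_num) hM' 3
              have a4 : (16 : ℝ) ≤ (M : ℝ) ^ 4 := by
                calc (16 : ℝ) = 2 ^ 4 := by norm_num
                  _ ≤ (M : ℝ) ^ 4 := pow_le_pow_left₀ (by norm_num) hM' 4
              nlinarith
            linarith)
        simpa using this
      · push_cast
        have h0 : 0 ≤ 8 * (((r : ℝ) / k) * Real.log r) * (r * Real.sqrt r) := by positivity
        have h1 := Nat.floor_le h0
        have hsq : Real.sqrt r ≤ (M : ℝ) ^ (1 / 4 : ℝ) := by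
          rw [Real.sqrt_eq_rpow]
          calc (r : ℝ) ^ (1 / 2 : ℝ) ≤ ((M : ℝ) ^ (1 / 2 : ℝ)) ^ (1 / 2 : ℝ) :=
                Real.rpow_le_rpow hr0 hrhalf (by norm_num)
            _ = (M : ℝ) ^ (1 / 4 : ℝ) := by
                rw [← Real.rpow_mul hM0.le]; norm_num
        have h2 : Q * ((r : ℝ) * Real.sqrt r) ≤ E := by
          calc Q * ((r : ℝ) * Real.sqrt r)
              ≤ Q * ((M : ℝ) ^ (1 / 2 : ℝ) * (M : ℝ) ^ (1 / 4 : ℝ)) := by
                apply mul_le_mul_of_nonneg_left _ hQ0.le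
                exact mul_le_mul hrhalf hsq (Real.sqrt_nonneg _) (by positivity)
            _ = E := by
                rw [hQ, hE, ← Real.rpow_add hM0, ← Real.rpow_add hM0]; norm_num
        have h3 : 8 * (((r : ℝ) / k) * Real.log r) * (r * Real.sqrt r) ≤ 8 * E * L := by
          calc 8 * (((r : ℝ) / k) * Real.log r) * (r * Real.sqrt r)
              ≤ 8 * (Q * L) * (r * Real.sqrt r) := by
                apply mul_le_mul_of_nonneg_right _ (by positivity)
                linarith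
            _ = 8 * (Q * (r * Real.sqrt r)) * L := by ring
            _ ≤ 8 * E * L := by
                apply mul_le_mul_of_nonneg_right _ hL0
                linarith
        linarith
    have hbnd : bnd r k M ≤ Real.exp (2 * E * L) * Real.exp (2 * E * L) *
        Real.exp (4 * E * (4 * L)) * Real.exp (E * (2 * L)) * Real.exp (5 * E * L) *
        Real.exp (8 * E * L * (2 * L)) * Real.exp ((16 * E * L + E) * (7 * L)) := by
      unfold bnd
      gcongr
    refine hbnd.trans ?_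
    rw [← Real.exp_add, ← Real.exp_add, ← Real.exp_add, ← Real.exp_add, ← Real.exp_add,
      ← Real.exp_add]
    apply Real.exp_le_exp.mpr
    nlinarith

/-- Row Asym. -/
theorem Asym (hR : CntR_stmt) : Asym_stmt := by
  refine ⟨200, fun M hM => ?_⟩
  have hM' : (2 : ℝ) ≤ M := by exact_mod_cast hM
  have hM0 : (0 : ℝ) < M := by linarith
  have hM1 : (1 : ℝ) ≤ M := by linarith
  have hcase : ∀ r : ℕ, (FRr r M).Finite ∧ ((FRr r M).ncard : ℝ) ≤
      Real.exp (196 * (M : ℝ) ^ (7 / 8 : ℝ) * (Real.log M) ^ 2) := by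
    intro r
    by_cases hr : r ^ 2 ≤ M
    · exact asym_main hR M r hM hr
    · have : FRr r M = ∅ := by
        ext N
        simp only [Set.mem_empty_iff_false, iff_false]
        rintro ⟨⟨o, st, h⟩, ht⟩
        exact hr ((asym_rank_sq_le h).trans ht)
      rw [this]
      refine ⟨Set.finite_empty, ?_⟩
      rw [Set.ncard_empty]
      push_cast
      exact (Real.exp_pos _).le
  have hsub : FRall M ⊆ ⋃ r ∈ Finset.range (M + 1),
      (fun N => (⟨r, N⟩ : Σ r : ℕ, Fin r → Fin r → Fin r → ℕ)) '' FRr r M := by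
    rintro ⟨r, N⟩ ⟨⟨o, st, h⟩, ht⟩
    have h1 : r ^ 2 ≤ M := (asym_rank_sq_le h).trans ht
    have h2 : r < M + 1 := by nlinarith
    simp only [Set.mem_iUnion]
    exact ⟨r, Finset.mem_range.mpr h2, N, ⟨⟨o, st, h⟩, ht⟩, rfl⟩
  have hfin : (⋃ r ∈ Finset.range (M + 1),
      (fun N => (⟨r, N⟩ : Σ r : ℕ, Fin r → Fin r → Fin r → ℕ)) '' FRr r M).Finite :=
    Set.Finite.biUnion (Finset.finite_toSet _) fun r _ => (hcase r).1.image _
  refine ⟨hfin.subset hsub, ?_⟩
  have hcard : (FRall M).ncard ≤ ∑ r ∈ Finset.range (M + 1), (FRr r M).ncard := by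
    refine (Set.ncard_le_ncard hsub hfin).trans ?_
    refine (Finset.set_ncard_biUnion_le _ _).trans ?_
    exact Finset.sum_le_sum fun r _ => Set.ncard_image_le (hcase r).1
  set L := Real.log (M : ℝ) with hL
  have hL2 : (1 / 2 : ℝ) ≤ L := by
    have h1 : Real.log 2 ≤ L := Real.log_le_log (by norm_num) hM'
    have h2 := Real.log_two_gt_d9
    linarith
  set E := (M : ℝ) ^ (7 / 8 : ℝ) with hE
  have hE1 : 1 ≤ E := Real.one_le_rpow hM1 (by norm_num)
  have hM2 : (M : ℝ) + 1 ≤ Real.exp (2 * L) := by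
    have : Real.exp (2 * L) = (M : ℝ) ^ 2 := by
      rw [two_mul, Real.exp_add, hL, Real.exp_log hM0, sq]
    rw [this]
    nlinarith
  calc ((FRall M).ncard : ℝ) ≤ ((∑ r ∈ Finset.range (M + 1), (FRr r M).ncard : ℕ) : ℝ) := by
        exact_mod_cast hcard
    _ = ∑ r ∈ Finset.range (M + 1), ((FRr r M).ncard : ℝ) := by push_cast; rfl
    _ ≤ ∑ _r ∈ Finset.range (M + 1), Real.exp (196 * E * L ^ 2) :=
        Finset.sum_le_sum fun r _ => (hcase r).2
    _ = ((M : ℝ) + 1) * Real.exp (196 * E * L ^ 2) := by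
        rw [Finset.sum_const, Finset.card_range, nsmul_eq_mul]; push_cast; ring
    _ ≤ Real.exp (2 * L) * Real.exp (196 * E * L ^ 2) :=
        mul_le_mul_of_nonneg_right hM2 (Real.exp_pos _).le
    _ = Real.exp (2 * L + 196 * E * L ^ 2) := by rw [Real.exp_add]
    _ ≤ Real.exp (200 * E * L ^ 2) := by
        apply Real.exp_le_exp.mpr
        have h1 : L ≤ 2 * L ^ 2 := by nlinarith
        have h2 : L ^ 2 ≤ E * L ^ 2 := by
          have : 0 ≤ (E - 1) * L ^ 2 := mul_nonneg (by linarith) (sq_nonneg _)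
          linarith
        nlinarith

end Pool.Agent.helper93.FR
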